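import Pool.Agent.helper77.BND.SpecB

/-!
# Project bnd, row BKA: the group `K₀(A)` of the crossed product of a band system
-/

set_option autoImplicit false

open scoped Topology Matrix
open Filter Finset

namespace Pool.Agent.BND

open Pool.Agent.CZ Pool.Agent.PV

/-- the class of the unit as a class of an idempotent matrix over `Fin 1` -/
theorem BKA_aux (A : Type) [Ring A] (n : ℕ) (hn : n = 1) (e : Matrix (Fin n) (Fin n) A) (he : e = 1)
    (h : e * e = e) : (⟨n, e, h⟩ : IdemMat A) = ⟨1, 1, one_mul 1⟩ := by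
  subst hn
  subst he
  rfl

theorem BKA_unit (A : Type) [Ring A] (h : (1 : Matrix (Fin 1) (Fin 1) A) * 1 = 1) :
    k0 (1 : Matrix (Fin 1) (Fin 1) A) h = unitCls A := by
  unfold k0 unitCls
  refine congrArg cls (BKA_aux A _ (Fintype.card_fin 1) _ ?_ _)
  exact Matrix.submatrix_one_equiv _

/-- the coefficients of the unit -/
theorem BKA_one {X : Type} [TopologicalSpace X] [CompactSpace X] {α : X ≃ₜ X} {A : Type}
    [CStarAlgebra A] {ι : C(X, ℂ) →⋆ₐ[ℂ] A} {u : unitary A} {c : ℤ → A →ₗ[ℂ] C(X, ℂ)} (hc : Cov α ι u c) (n : ℤ) :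
    c n 1 = if n = 0 then 1 else 0 := by
  have h := hc.cval n 0 1
  have e : ι 1 * up u 0 = 1 := by
    rw [map_one, one_mul]
    unfold up
    rw [zpow_zero]
    rfl
  rw [e] at h
  exact h

/-- the family of the unit -/
theorem BKA_fam {B : BS} [CompactSpace ↥(XS B)] {α : ↥(XS B) ≃ₜ ↥(XS B)} {A : Type} [CStarAlgebra A]
    {ι : C(↥(XS B), ℂ) →⋆ₐ[ℂ] A} {u : unitary A} {c : ℤ → A →ₗ[ℂ] C(↥(XS B), ℂ)} (hc : Cov α ι u c) (m : ℕ) :
    Fam B c m 1 (fun _ _ i j => if i = j then 1 else 0) := by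
  intro x e s i he hs hi hx n
  rw [BKA_one hc n]
  by_cases hn : n = 0
  · subst hn
    rw [if_pos rfl, if_pos ⟨by omega, by omega⟩]
    have : i = ((i : ℤ) - 0).toNat := by omega
    change (1 : ℂ) = if i = ((i : ℤ) - 0).toNat then 1 else 0
    rw [if_pos this]
  · rw [if_neg hn]
    by_cases hr : 0 ≤ (i : ℤ) - n ∧ (i : ℤ) - n < (B.L m).h e
    · have : ¬ i = ((i : ℤ) - n).toNat := by omega
      rw [if_pos hr]
      change (0 : ℂ) = if i = ((i : ℤ) - n).toNat then 1 else 0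
      rw [if_neg this]
    · rw [if_neg hr]
      rfl

/-- the rank of the unit -/
theorem BKA_rk {B : BS} {M : ℕ → ℕ → ℕ → ℕ} [CompactSpace ↥(XS B)] {α : ↥(XS B) ≃ₜ ↥(XS B)} {A : Type} [CStarAlgebra A]
    {ι : C(↥(XS B), ℂ) →⋆ₐ[ℂ] A} {u : unitary A} {c : ℤ → A →ₗ[ℂ] C(↥(XS B), ℂ)} (hc : CPr B M α ι u c)
    (S : ℕ → Subalgebra ℂ A) (m : ℕ) (R : K0 (S m) →+ (ℕ → ℤ)) (hR : IsRk B c S m R) (v : ℕ) (hv : v < (B.L m).n) :
    R (unitCls (S m)) v = (B.L m).h v := by
  have hl := hc.bs.lv m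
  have hvN : v < (B.L m).N := lt_of_lt_of_le hv hl.nN
  have h1 : (1 : Matrix (Fin 1) (Fin 1) (S m)) * 1 = 1 := one_mul 1
  have h := hR.1 (Fin 1) 1 h1 (fun _ _ _ _ i j => if i = j then 1 else 0) (by
    intro a b
    have hab : a = b := Subsingleton.elim a b
    subst hab
    rw [Matrix.one_apply_eq]
    exact BKA_fam hc.cov m) v 0 hvN ⟨le_refl 0, zero_le_one⟩
  rw [BKA_unit, hl.vtx v hv false, List.map_cons, List.map_nil, List.sum_cons, List.sum_nil, add_zero] at h
  have h2 : (∑ _a : Fin 1, ∑ i ∈ range ((B.L m).h v), (if i = i then (1 : ℂ) else 0)) = ((B.L m).h v : ℂ) := by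
    simp
  rw [h2] at h
  have h3 : (((B.L m).h v : ℤ) : ℂ) = ((R (unitCls (S m)) v : ℤ) : ℂ) := by
    rw [← h]
    push_cast
    rfl
  exact (Int.cast_injective h3).symm

theorem BKA (hBSA : BSA_stmt) (hBSJ : BSJ_stmt) (hBRH : BRH_stmt) (hBRI : BRI_stmt) (hBRS : BRS_stmt) (hBRM : BRM_stmt) (hBIJ : BIJ_stmt) (hBTH : BTH_stmt) (hBCO : BCO_stmt) (hFUN : FUN_stmt) : BKA_stmt := by
  intro H _ P g hP B M th H' hth hg _ α A _ ι u c hc
  obtain ⟨S, hS⟩ := hBSA B M α A ι u c hc
  have hR0 : ∀ m, ∃ R : K0 (S m) →+ (ℕ → ℤ), IsRk B c S m R := hBRH B M α A ι u c hc S hS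
  choose R hR using hR0
  have hmem : ∀ (m : ℕ) (w : K0 (S m)), ∑ v ∈ range (B.L m).n, R m w v • th m v ∈ H' := by
    intro m w
    exact (hth.bnd m (R m w)).mp fun e he => (hR m).2.2 w e he
  let i : ∀ m, K0 (S m) →+ K0 (S (m + 1)) := fun m =>
    k0map (Subalgebra.inclusion (hS.mono (Nat.le_succ m))).toRingHom
  let a : ∀ m, K0 (S m) →+ K0 A := fun m => k0map (S m).val.toRingHom
  let b : ∀ m, K0 (S m) →+ ↥H' := fun m =>
    { toFun := fun w => ⟨∑ v ∈ range (B.L m).n, R m w v • th m v, hmem m w⟩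
      map_zero' := by
        apply Subtype.ext
        change ∑ v ∈ range (B.L m).n, R m 0 v • th m v = 0
        rw [map_zero]
        exact Finset.sum_eq_zero fun v _ => zero_smul ℤ _
      map_add' := by
        intro w w'
        apply Subtype.ext
        change ∑ v ∈ range (B.L m).n, R m (w + w') v • th m v =
          ∑ v ∈ range (B.L m).n, R m w v • th m v + ∑ v ∈ range (B.L m).n, R m w' v • th m v
        rw [map_add, ← Finset.sum_add_distrib]
        exact Finset.sum_congr rfl fun v _ => add_smul (R m w v) (R m w' v) (th m v) }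
  have hb : ∀ m w, ((b m w : ↥H') : H) = ∑ v ∈ range (B.L m).n, R m w v • th m v := fun m w => rfl
  have hbm : ∀ m w v', v' < (B.L (m + 1)).n →
      R (m + 1) (i m w) v' = ∑ v ∈ range (B.L m).n, (M m v' v : ℤ) * R m w v := by
    intro m w v' hv'
    exact hBRM B M α A ι u c hc S hS m (R m) (R (m + 1)) (hR m) (hR (m + 1)) (hS.mono (Nat.le_succ m)) w v' hv'
  have hai : ∀ m w, a (m + 1) (i m w) = a m w := by
    intro m w
    have h := hFUN.2.1 (S m) (S (m + 1)) A (Subalgebra.inclusion (hS.mono (Nat.le_succ m))).toRingHom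
      (S (m + 1)).val.toRingHom w
    exact h.symm
  have hbi : ∀ m w, b (m + 1) (i m w) = b m w := by
    intro m w
    apply Subtype.ext
    rw [hb, hb, ← hBTH H B M P g th H' hth m (R m w) 1]
    refine Finset.sum_congr rfl fun v' hv' => ?_
    rw [hbm m w v' (Finset.mem_range.mp hv')]
    rfl
  have hab : ∀ m w, a m w = 0 ↔ b m w = 0 := by
    intro m w
    constructor
    · intro h
      obtain ⟨d, hd⟩ := hBIJ B M α A ι u c hc S hS m (R m) (hR m) w h
      apply Subtype.ext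
      rw [hb, ← hBTH H B M P g th H' hth m (R m w) d]
      refine Finset.sum_eq_zero fun v hv => ?_
      rw [hd v (Finset.mem_range.mp hv)]
      exact zero_smul ℤ _
    · intro h
      have h0 : ∑ v ∈ range (B.L m).n, R m w v • th m v = 0 := by
        rw [← hb, h]
        rfl
      have h1 := hth.kill m (R m w) h0
      have h2 : i m w = 0 := by
        apply hBRI B M α A ι u c hc S hS (m + 1) (R (m + 1)) (hR (m + 1))
        intro v' hv'
        rw [hbm m w v' hv']
        exact h1 v' hv'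
      rw [← hai m w, h2, map_zero]
  have hasur : ∀ z, ∃ m w, a m w = z := by
    intro z
    obtain ⟨m, w, h⟩ := hBSJ B M α A ι u c hc S hS z
    exact ⟨m, w, h.symm⟩
  have hbu : ∀ m, ((b m (unitCls (S m)) : ↥H') : H) = g := by
    intro m
    rw [hb, ← hth.unit m]
    refine Finset.sum_congr rfl fun v hv => ?_
    rw [BKA_rk hc S m (R m) (hR m) v (Finset.mem_range.mp hv)]
    exact natCast_zsmul (th m v) ((B.L m).h v)
  have hbsur : ∀ x, ∃ m w, b m w = x := by
    intro x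
    obtain ⟨k, -, hk⟩ := hP.arch g (-(x : H)) hP.unit
    obtain ⟨m, cc, hcc⟩ := hth.span _ hk
    have hz : ∑ v ∈ range (B.L m).n, ((cc v : ℤ)) • th m v = k • g - -(x : H) := by
      rw [hcc]
      exact Finset.sum_congr rfl fun v _ => natCast_zsmul (th m v) (cc v)
    have hzm : ∑ v ∈ range (B.L m).n, ((cc v : ℤ)) • th m v ∈ H' := by
      rw [hz]
      exact H'.sub_mem (H'.nsmul_mem hg k) (H'.neg_mem x.2)
    obtain ⟨w, hw⟩ := hBRS B M α A ι u c hc S hS m (R m) (hR m) (fun v => (cc v : ℤ))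
      (fun v => Int.natCast_nonneg (cc v)) ((hth.bnd m (fun v => (cc v : ℤ))).mpr hzm)
    refine ⟨m, w - k • unitCls (S m), ?_⟩
    apply Subtype.ext
    rw [map_sub, map_nsmul]
    change ((b m w : ↥H') : H) - k • ((b m (unitCls (S m)) : ↥H') : H) = x
    rw [hbu m, hb]
    have e : ∑ v ∈ range (B.L m).n, R m w v • th m v = k • g - -(x : H) := by
      rw [← hz]
      refine Finset.sum_congr rfl fun v hv => ?_
      rw [hw v (Finset.mem_range.mp hv)]
    rw [e]
    abel
  obtain ⟨φ, hφ⟩ := hBCO (fun m => K0 (S m)) (K0 A) ↥H' i a b hai hbi hab hasur hbsur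
  refine ⟨S, R, φ, hS, hR, ?_, fun z => hBSJ B M α A ι u c hc S hS z, ?_⟩
  · have h := hφ 0 (unitCls (S 0))
    have h1 : a 0 (unitCls (S 0)) = unitCls A := hFUN.2.2.1 (S 0) A (S 0).val.toRingHom
    rw [h1] at h
    rw [h]
    exact hbu 0
  · intro m w
    have h := hφ m w
    change ((φ (a m w) : ↥H') : H) = _
    rw [h]
    exact hb m w

end Pool.Agent.BND
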