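import Pool.Agent.helper77.BND.SpecD

/-!
# bnd, row STL: the floors of a letter of the word
-/

set_option autoImplicit false

open scoped Topology
open Finset

namespace Pool.Agent.BND

open Pool.Agent.CZ Pool.Agent.PV

theorem STL (_hWDC : WDC_stmt) (hWAP : WAP_stmt) : STL_stmt := by
  intro B M hB m e s he hs a ha
  obtain ⟨P, Q, hPQ⟩ := List.append_of_mem ha
  obtain ⟨h1, h2⟩ := hWAP (B.L m).h P (a :: Q)
  have h3 : hw (B.L m).h (a :: Q) = (B.L m).h a.1 + hw (B.L m).h Q := by
    unfold hw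
    rw [List.map_cons, List.sum_cons]
  have h4 := hB.htw m e s he hs
  rw [hPQ, h1, h3] at h4
  refine ⟨hw (B.L m).h P, by omega, fun k hk => ?_⟩
  have h5 := (h2 Am (emb (B.L m)) k).2
  unfold BS.st
  rw [hPQ, h5]
  unfold fw
  rw [if_pos hk]

end Pool.Agent.BND
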