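import Pool.Agent.helper77.BND.SpecY

/-!
# bnd, row YDT: the loop of idempotents and the conjugating invertible for a class fixed by the automorphism
-/

set_option autoImplicit false

open scoped Topology Matrix
open Filter

namespace Pool.Agent.BND

open Pool.Agent.CZ Pool.Agent.PV

theorem YDT_rotR {A B : Type} [NormedRing A] [NormedAlgebra ℂ A] [NormedRing B] [NormedAlgebra ℂ B] (φ : A →ₐ[ℂ] B)
    (ι : Type) [Fintype ι] [DecidableEq ι] (s : ℝ) : (rotR A ι s).map φ = rotR B ι s := by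
  have h1 : ∀ c : ℂ, (c • (1 : Matrix ι ι A)).map φ = c • (1 : Matrix ι ι B) := by
    intro c
    ext i j
    rw [Matrix.map_apply, Matrix.smul_apply, Matrix.smul_apply, map_smul, Matrix.one_apply, Matrix.one_apply]
    split_ifs
    · rw [map_one]
    · rw [map_zero]
  have h2 : ∀ c : ℂ, (-(c • (1 : Matrix ι ι A))).map φ = -(c • (1 : Matrix ι ι B)) := by
    intro c
    rw [← h1 c]
    ext i j
    rw [Matrix.map_apply, Matrix.neg_apply, map_neg, Matrix.neg_apply, Matrix.map_apply]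
  unfold rotR
  rw [Matrix.fromBlocks_map, h1, h1, h2]

theorem YDT_blk {A B : Type} [NormedRing A] [NormedAlgebra ℂ A] [NormedRing B] [NormedAlgebra ℂ B] (φ : A →ₐ[ℂ] B)
    (ι κ : Type) [Fintype ι] [DecidableEq ι] [Fintype κ] [DecidableEq κ] (g : Matrix ι ι A) :
    (Matrix.fromBlocks g 0 0 (1 : Matrix κ κ A)).map φ = Matrix.fromBlocks (g.map φ) 0 0 (1 : Matrix κ κ B) := by
  rw [Matrix.fromBlocks_map]
  have h0 : ∀ (μ ν : Type), (0 : Matrix μ ν A).map φ = 0 := fun μ ν => Matrix.map_zero _ (map_zero φ)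
  rw [h0, h0, Matrix.map_one _ (map_zero φ) (map_one φ)]

theorem YDT_blk0 {A B : Type} [NormedRing A] [NormedAlgebra ℂ A] [NormedRing B] [NormedAlgebra ℂ B] (φ : A →ₐ[ℂ] B)
    (ι : Type) [Fintype ι] [DecidableEq ι] :
    (Matrix.fromBlocks (1 : Matrix ι ι A) 0 0 (0 : Matrix ι ι A)).map φ = Matrix.fromBlocks (1 : Matrix ι ι B) 0 0 0 := by
  rw [Matrix.fromBlocks_map]
  have h0 : ∀ (μ ν : Type), (0 : Matrix μ ν A).map φ = 0 := fun μ ν => Matrix.map_zero _ (map_zero φ)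
  rw [h0, Matrix.map_one _ (map_zero φ) (map_one φ)]

/-- `rotE` is natural -/
theorem YDT_rotE {A B : Type} [NormedRing A] [NormedAlgebra ℂ A] [NormedRing B] [NormedAlgebra ℂ B] (φ : A →ₐ[ℂ] B)
    (ι : Type) [Fintype ι] [DecidableEq ι] (g g' : Matrix ι ι A) (s : ℝ) :
    (rotE g g' s).map φ = rotE (g.map φ) (g'.map φ) s := by
  have hm : ∀ M N : Matrix (ι ⊕ ι) (ι ⊕ ι) A, (M * N).map φ = M.map φ * N.map φ := fun M N => Matrix.map_mul
  unfold rotE rotW rotV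
  simp only [hm, YDT_rotR, YDT_blk, YDT_blk0]

theorem YDT_aux (hPTL : PTL_stmt) (A : Type) [NormedRing A] [NormedAlgebra ℂ A] [CompleteSpace A]
    (ι : Type) [Fintype ι] [DecidableEq ι] (E : C(unitInterval, Matrix ι ι A))
    (h : ∀ t, E t * E t = E t) :
    ∃ W W' : C(unitInterval, Matrix ι ι A), W 0 = 1 ∧ (∀ t, W' t * W t = 1 ∧ W t * W' t = 1 ∧ E t * W t = W t * E 0) ∧
      ∀ (R' : Type) [Ring R'] (π : Matrix ι ι A →+* R'), (∀ t, π (E t) = π (E 0)) → ∀ t, π (W t) = 1 ∧ π (W' t) = 1 := by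
  let i1 : NormedRing (Matrix ι ι A) := Matrix.linftyOpNormedRing
  let i2 : NormedAlgebra ℂ (Matrix ι ι A) := Matrix.linftyOpNormedAlgebra
  have i3 : @CompleteSpace (Matrix ι ι A)
      (i1.toMetricSpace.toPseudoMetricSpace.toUniformSpace) :=
    (inferInstance : CompleteSpace (ι → ι → A))
  obtain ⟨W, W', h0, hW, hloc⟩ := @hPTL (Matrix ι ι A) i1 i2 i3 E h
  exact ⟨W, W', h0, hW, hloc⟩

/-- evaluation at a point -/
noncomputable def YDT_ev {X : Type} [TopologicalSpace X] [CompactSpace X] (x : X) : C(X, ℂ) →ₐ[ℂ] ℂ :=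
  { toFun := fun f => f x
    map_one' := rfl
    map_mul' := fun _ _ => rfl
    map_zero' := rfl
    map_add' := fun _ _ => rfl
    commutes' := fun _ => rfl }

/-- every point of the circle is in the image of the interval -/
theorem YDT_circle (t : UnitAddCircle) : ∃ s : unitInterval, ((s : ℝ) : UnitAddCircle) = t := by
  obtain ⟨y, hy, hyt⟩ := AddCircle.coe_image_Ico_eq (p := (1 : ℝ)) (a := 0) ▸ (Set.mem_univ t)
  rw [zero_add] at hy
  exact ⟨⟨y, hy.1, hy.2.le⟩, hyt⟩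

theorem YDT_val (hYRV : YRV_stmt) {X : Type} [TopologicalSpace X] [CompactSpace X] (x : X) (κ : Type) [Fintype κ] [DecidableEq κ]
    (g g' : Matrix κ κ C(X, ℂ)) (E : Matrix (κ ⊕ κ) (κ ⊕ κ) C(UnitAddCircle, C(X, ℂ))) (hE : IsEL g g' E)
    (h1 : g.map (YDT_ev x) = 1) (h2 : g'.map (YDT_ev x) = 1) (i j : κ ⊕ κ) (t : UnitAddCircle) :
    E i j t x = (Matrix.fromBlocks 1 0 0 0 : Matrix (κ ⊕ κ) (κ ⊕ κ) ℂ) i j := by
  obtain ⟨s, rfl⟩ := YDT_circle t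
  have h3 := congrFun (congrFun (hE s) i) j
  have h4 : E i j ((s : ℝ) : UnitAddCircle) = rotE g g' s i j := h3
  rw [h4]
  have h5 := congrFun (congrFun (YDT_rotE (YDT_ev x) κ g g' s) i) j
  have h6 : (rotE g g' s i j) x = rotE (g.map (YDT_ev x)) (g'.map (YDT_ev x)) s i j := h5
  rw [h6, h1, h2, ((hYRV ℂ κ).2.1 s).2]

/-- the automorphism moves the loop -/
theorem YDT_lal {X : Type} [TopologicalSpace X] [CompactSpace X] (α : X ≃ₜ X)
    (h : Continuous (alC α : C(X, ℂ) →ₐ[ℂ] C(X, ℂ))) (h' : Continuous ((alC α).symm : C(X, ℂ) →ₐ[ℂ] C(X, ℂ)))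
    (κ : Type) [Fintype κ] [DecidableEq κ] (g g' : Matrix κ κ C(X, ℂ))
    (E E₁ : Matrix (κ ⊕ κ) (κ ⊕ κ) C(UnitAddCircle, C(X, ℂ))) (hE : IsEL g g' E)
    (hE₁ : IsEL (g.map (alC α : C(X, ℂ) →ₐ[ℂ] C(X, ℂ))) (g'.map (alC α : C(X, ℂ) →ₐ[ℂ] C(X, ℂ))) E₁) :
    E.map (lal (alC α) h h') = E₁ := by
  ext i j : 1
  refine ContinuousMap.ext fun t => ?_
  obtain ⟨s, rfl⟩ := YDT_circle t
  have h3 : E i j ((s : ℝ) : UnitAddCircle) = rotE g g' s i j := congrFun (congrFun (hE s) i) j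
  have h4 : E₁ i j ((s : ℝ) : UnitAddCircle) =
      rotE (g.map (alC α : C(X, ℂ) →ₐ[ℂ] C(X, ℂ))) (g'.map (alC α : C(X, ℂ) →ₐ[ℂ] C(X, ℂ))) s i j :=
    congrFun (congrFun (hE₁ s) i) j
  rw [h4, ← YDT_rotE (alC α : C(X, ℂ) →ₐ[ℂ] C(X, ℂ)) κ g g' s]
  exact congrArg (alC α : C(X, ℂ) →ₐ[ℂ] C(X, ℂ)) h3

theorem YDT_inv {R : Type} [Ring R] (a b c : R) (h1 : a * b = 1) (h2 : c * a = 1) : b = c := by
  calc b = c * a * b := by rw [h2, one_mul]
    _ = c * (a * b) := mul_assoc _ _ _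
    _ = c := by rw [h1, mul_one]

theorem YDT (hYPT : YPT_stmt) (hYRV : YRV_stmt) (hYEP : YEP_stmt) (hYDE : YDE_stmt) (hPTL : PTL_stmt)
    (hK1B : K1B_stmt) (hK1M : K1M_stmt) : YDT_stmt := by
  intro X _ _ _ α h h' p n g hgp hgq hk
  set al : C(X, ℂ) →ₐ[ℂ] C(X, ℂ) := (alC α : C(X, ℂ) →ₐ[ℂ] C(X, ℂ)) with hal
  set g' : (Matrix (Fin n) (Fin n) C(X, ℂ))ˣ := umap al.toRingHom g with hg'
  have hg'v : (g' : Matrix (Fin n) (Fin n) C(X, ℂ)) = (g : Matrix (Fin n) (Fin n) C(X, ℂ)).map al := rfl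
  have hgp' : Near (g' : Matrix (Fin n) (Fin n) C(X, ℂ)) 1 p := by
    have h1 := (α.symm.continuous.tendsto p).eventually hgq
    filter_upwards [h1] with x hx i j
    exact hx i j
  obtain ⟨k, Γ, Γ', hΓ, hΓ0, hΓ1, hΓp⟩ := hYPT X p (Fin n) g g' hk.symm hgp hgp'
  obtain ⟨E, hE⟩ := hYEP C(X, ℂ) (Fin n ⊕ Fin k) Γ Γ' hΓ
  obtain ⟨W, W', hW0, hW, hloc⟩ := YDT_aux hPTL C(UnitAddCircle, C(X, ℂ)) ((Fin n ⊕ Fin k) ⊕ (Fin n ⊕ Fin k)) E
    (fun t => (hE t).2)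
  -- the values of the idempotents near p
  have hEp : ∀ᶠ x in 𝓝 p, ∀ (s : unitInterval) (i j : (Fin n ⊕ Fin k) ⊕ (Fin n ⊕ Fin k)) (t : UnitAddCircle),
      E s i j t x = (Matrix.fromBlocks 1 0 0 0 : Matrix ((Fin n ⊕ Fin k) ⊕ (Fin n ⊕ Fin k)) ((Fin n ⊕ Fin k) ⊕ (Fin n ⊕ Fin k)) ℂ) i j := by
    filter_upwards [hΓp] with x hx s i j t
    refine YDT_val hYRV x (Fin n ⊕ Fin k) (Γ s) (Γ' s) (E s) (hE s).1 ?_ ?_ i j t
    · ext a b
      exact (hx s a b).1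
    · ext a b
      exact (hx s a b).2
  have hπ : ∀ᶠ x in 𝓝 p, ∀ (i j : (Fin n ⊕ Fin k) ⊕ (Fin n ⊕ Fin k)) (t : UnitAddCircle),
      W 1 i j t x = (1 : Matrix ((Fin n ⊕ Fin k) ⊕ (Fin n ⊕ Fin k)) ((Fin n ⊕ Fin k) ⊕ (Fin n ⊕ Fin k)) ℂ) i j ∧
      W' 1 i j t x = (1 : Matrix ((Fin n ⊕ Fin k) ⊕ (Fin n ⊕ Fin k)) ((Fin n ⊕ Fin k) ⊕ (Fin n ⊕ Fin k)) ℂ) i j := by
    filter_upwards [hEp] with x hx i j t
    let ev : C(UnitAddCircle, C(X, ℂ)) →+* ℂ :=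
      { toFun := fun f => f t x
        map_one' := rfl
        map_mul' := fun _ _ => rfl
        map_zero' := rfl
        map_add' := fun _ _ => rfl }
    have h1 := hloc _ (ev.mapMatrix : Matrix ((Fin n ⊕ Fin k) ⊕ (Fin n ⊕ Fin k)) ((Fin n ⊕ Fin k) ⊕ (Fin n ⊕ Fin k)) C(UnitAddCircle, C(X, ℂ)) →+*
        Matrix ((Fin n ⊕ Fin k) ⊕ (Fin n ⊕ Fin k)) ((Fin n ⊕ Fin k) ⊕ (Fin n ⊕ Fin k)) ℂ) (by
      intro s
      ext a b
      exact (hx s a b t).trans (hx 0 a b t).symm) 1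
    exact ⟨congrFun (congrFun h1.1 i) j, congrFun (congrFun h1.2 i) j⟩
  -- the unit
  let gu : (Matrix (Fin n ⊕ Fin k) (Fin n ⊕ Fin k) C(X, ℂ))ˣ := ⟨Γ 0, Γ' 0, (hΓ 0).1, (hΓ 0).2⟩
  refine ⟨Fin n ⊕ Fin k, inferInstance, inferInstance, E 0, W 1, W' 1, ?_, ?_⟩
  · refine ⟨(hE 0).2, (hW 1).2.1, (hW 1).1, ?_, ?_, ?_, ?_, ?_⟩
    · have h1 : (E 0).map (lal (alC α) h h') = E 1 := by
        refine YDT_lal α h h' (Fin n ⊕ Fin k) (Γ 0) (Γ' 0) (E 0) (E 1) (hE 0).1 ?_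
        have h2 : (Γ 0).map al = Γ 1 := by
          rw [hΓ0, hΓ1, YDT_blk al (Fin n) (Fin k), hg'v]
        have h3 : (Γ' 0).map al = Γ' 1 := by
          refine YDT_inv (Γ 1) _ _ ?_ (hΓ 1).2
          rw [← h2]
          have h4 : (Γ 0).map al * (Γ' 0).map al = (Γ 0 * Γ' 0).map al := Matrix.map_mul.symm
          rw [h4, (hΓ 0).1]
          exact Matrix.map_one _ (map_zero al) (map_one al)
        rw [h2, h3]
        exact (hE 1).1
      rw [h1]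
      exact (hW 1).2.2
    · filter_upwards [hEp] with x hx i j t
      exact hx 0 i j t
    · filter_upwards [hπ] with x hx i j t
      exact (hx i j t).1
    · filter_upwards [hπ] with x hx i j t
      exact (hx i j t).2
    · filter_upwards [hgq] with x hx i j t
      have h1 : (Γ 0).map (YDT_ev x) = 1 := by
        rw [hΓ0, YDT_blk (YDT_ev x) (Fin n) (Fin k)]
        have h2 : (g : Matrix (Fin n) (Fin n) C(X, ℂ)).map (YDT_ev x) = 1 := by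
          ext a b
          exact hx a b
        rw [h2, Matrix.fromBlocks_one]
      have h2 : (Γ' 0).map (YDT_ev x) = 1 := by
        refine (YDT_inv (1 : Matrix (Fin n ⊕ Fin k) (Fin n ⊕ Fin k) ℂ) _ 1 ?_ (one_mul _))
        rw [← h1]
        have h4 : (Γ 0).map (YDT_ev x) * (Γ' 0).map (YDT_ev x) = (Γ 0 * Γ' 0).map (YDT_ev x) := Matrix.map_mul.symm
        rw [h4, (hΓ 0).1]
        exact (Matrix.map_one _ (map_zero (YDT_ev x)) (map_one (YDT_ev x))).trans h1.symm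
      exact YDT_val hYRV x (Fin n ⊕ Fin k) (Γ 0) (Γ' 0) (E 0) (hE 0).1 h1 h2 i j t
  · intro hE' de hde
    rw [hYDE C(X, ℂ) (Fin n ⊕ Fin k) gu (E 0) hE' (hE 0).1 de hde]
    have h1 := hK1B C(X, ℂ) (Fin n) (Fin k) g (1 : (Matrix (Fin k) (Fin k) C(X, ℂ))ˣ) gu hΓ0
    rw [h1, (hK1M C(X, ℂ) (Fin k) 1 1).2.2.1, add_zero]

end Pool.Agent.BND
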